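import Mathlib

set_option autoImplicit false
open MeasureTheory

namespace Pool.Agent.H.MP_703902_co.D

/-- finite paths of `G` starting at `o`, listed from the end vertex back to `o` -/
abbrev PathFrom {V : Type} (G : SimpleGraph V) (o : V) : Type :=
  {L : List V // L.IsChain G.Adj ∧ L.Nodup ∧ L.getLast? = some o}

/-- the path tree: two paths are adjacent when one arises from the other by deleting the end vertex -/
def pathTree {V : Type} (G : SimpleGraph V) (o : V) : SimpleGraph (PathFrom G o) :=
  SimpleGraph.fromRel fun P Q => Q.1.tail = P.1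

/-- the one-vertex path -/
def root {V : Type} (G : SimpleGraph V) (o : V) : PathFrom G o := ⟨[o], by simp, by simp, rfl⟩

/-- the adjacency operator -/
noncomputable def adjOp {X : Type} (T : SimpleGraph X) (g : X → ℝ) : X → ℝ :=
  fun x => ∑ᶠ y ∈ T.neighborSet x, g y

/-- `ν` is the matching measure of `(G, o)`, degrees being bounded by `D` -/
def IsMatchingMeasure {V : Type} (G : SimpleGraph V) (o : V) (D : ℝ) (ν : Measure ℝ) : Prop :=
  IsProbabilityMeasure ν ∧ ν (Set.Icc (-D) D)ᶜ = 0 ∧ ∀ n : ℕ,
    (adjOp (pathTree G o))^[n] (Set.indicator {root G o} 1) (root G o) = ∫ x, x ^ n ∂ν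

end Pool.Agent.H.MP_703902_co.D
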