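import Mathlib
import Pool.Agent.H.MP_703902_co.D

set_option autoImplicit false
open MeasureTheory Polynomial Filter Topology

namespace Pool.Agent.H.MP_703902_co.A
open D

variable {Y : Type} (T : SimpleGraph Y) (hT : ∀ x, (T.neighborSet x).Finite)

noncomputable def A0 : (Y →₀ ℝ) →ₗ[ℝ] (Y →₀ ℝ) :=
  Finsupp.linearCombination ℝ fun x => ∑ y ∈ (hT x).toFinset, Finsupp.single y 1

theorem adj_eq (g : Y → ℝ) (x : Y) : adjOp T g x = ∑ y ∈ (hT x).toFinset, g y :=
  finsum_mem_eq_finite_toFinset_sum g (hT x)

theorem sym (h : Y → ℝ) (g : Y →₀ ℝ) :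
    Finsupp.linearCombination ℝ h (A0 T hT g) = Finsupp.linearCombination ℝ (adjOp T h) g := by
  induction g using Finsupp.induction_linear with
  | zero => simp
  | add a b ha hb => simp [ha, hb]
  | single x c => simp [A0, adj_eq T hT, map_sum]

theorem lc_comm (g k : Y →₀ ℝ) :
    Finsupp.linearCombination ℝ g k = Finsupp.linearCombination ℝ k g := by
  induction g using Finsupp.induction_linear with
  | zero => simp
  | add a b ha hb =>
    rw [map_add, ← ha, ← hb]
    simp [Finsupp.linearCombination_apply, Finsupp.sum, mul_add, Finset.sum_add_distrib]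
  | single x c =>
    classical
    simp only [Finsupp.linearCombination_single, smul_eq_mul]
    simp only [Finsupp.linearCombination_apply, Finsupp.sum, smul_eq_mul, Finsupp.single_apply,
      mul_ite, mul_zero, Finset.sum_ite_eq]
    split_ifs with h
    · ring
    · simp [Finsupp.notMem_support_iff.1 h]

theorem coeA (g : Y →₀ ℝ) : ⇑(A0 T hT g) = adjOp T g := by
  classical
  funext y
  rw [adj_eq T hT]
  induction g using Finsupp.induction_linear with
  | zero => simp
  | add a b ha hb => simp [ha, hb, Finset.sum_add_distrib]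
  | single x c =>
    simp only [A0, Finsupp.linearCombination_single, Finsupp.smul_apply, Finsupp.finsetSum_apply,
      Finsupp.single_apply, Finset.sum_ite_eq', Finset.sum_ite_eq, Set.Finite.mem_toFinset,
      SimpleGraph.mem_neighborSet, smul_eq_mul, T.adj_comm y x]
    split_ifs <;> simp

theorem coeP (n : ℕ) (g : Y →₀ ℝ) : ⇑((A0 T hT ^ n) g) = (adjOp T)^[n] g := by
  induction n with
  | zero => rfl
  | succ n ih => rw [pow_succ', Module.End.mul_apply, coeA, ih, Function.iterate_succ_apply']

theorem symP (n : ℕ) (h : Y → ℝ) (g : Y →₀ ℝ) : Finsupp.linearCombination ℝ h ((A0 T hT ^ n) g) =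
    Finsupp.linearCombination ℝ ((adjOp T)^[n] h) g := by
  induction n generalizing h with
  | zero => rfl
  | succ n ih => rw [pow_succ', Module.End.mul_apply, sym, ih, Function.iterate_succ_apply]

theorem symQ (p : ℝ[X]) (k g : Y →₀ ℝ) : Finsupp.linearCombination ℝ k (aeval (A0 T hT) p g) =
    Finsupp.linearCombination ℝ g (aeval (A0 T hT) p k) := by
  induction p using Polynomial.induction_on' with
  | add p q hp hq => simp [hp, hq]
  | monomial n c =>
    simp only [aeval_monomial, Module.End.mul_apply, Module.algebraMap_end_apply, map_smul]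
    rw [symP, ← coeP T hT, lc_comm]

include hT in
theorem atom (r : Y) (f : Y → ℝ) (h0 : adjOp T f = 0) (h1 : f r = 1) (C : ℝ)
    (hC : ∀ s : Finset Y, ∑ x ∈ s, f x ^ 2 ≤ C) (D : ℝ) (ν : Measure ℝ) [IsProbabilityMeasure ν]
    (hs : ν (Set.Icc (-D) D)ᶜ = 0)
    (hm : ∀ n : ℕ, (adjOp T)^[n] (Set.indicator {r} 1) r = ∫ x, x ^ n ∂ν) : 0 < ν {0} := by
  classical
  have ae : ∀ᵐ x ∂ν, x ∈ Set.Icc (-D) D := hs
  have int : ∀ g : ℝ → ℝ, Continuous g → Integrable g ν := fun g hg => by
    have := hg.continuousOn.integrableOn_compact (μ := ν) (isCompact_Icc (a := -D) (b := D))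
    rwa [IntegrableOn, Measure.restrict_eq_self_of_ae_mem ae] at this
  let δ : Y →₀ ℝ := Finsupp.single r 1
  have hδ : ⇑δ = Set.indicator {r} 1 := by
    funext x
    simp [δ, Finsupp.single_apply, Set.indicator_apply, eq_comm]
  have m1 : ∀ p : ℝ[X], aeval (A0 T hT) p δ r = ∫ x, p.eval x ∂ν := by
    intro p
    induction p using Polynomial.induction_on' with
    | add p q hp hq =>
      simp only [map_add, LinearMap.add_apply, Finsupp.add_apply, eval_add, hp, hq]
      rw [integral_add (int _ p.continuous) (int _ q.continuous)]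
    | monomial n c =>
      simp only [aeval_monomial, Module.End.mul_apply, Module.algebraMap_end_apply,
        Finsupp.smul_apply, eval_monomial, integral_const_mul, coeP, hδ, hm, smul_eq_mul]
  have m2 : ∀ p : ℝ[X], Finsupp.linearCombination ℝ f (aeval (A0 T hT) p δ) = p.eval 0 := by
    intro p
    induction p using Polynomial.induction_on' with
    | add p q hp hq => simp [hp, hq]
    | monomial n c =>
      simp only [aeval_monomial, Module.End.mul_apply, Module.algebraMap_end_apply, map_smul, symP]
      cases n with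
      | zero => simp [δ, h1]
      | succ n =>
        have z : adjOp T 0 = 0 := by funext x; simp [adj_eq T hT]
        simp [Function.iterate_succ_apply, h0, Function.iterate_fixed z, δ]
  have m3 : ∀ p : ℝ[X], p.eval 0 = 1 → 1 ≤ (∫ x, p.eval x ^ 2 ∂ν) * C := by
    intro p hp
    have e1 := symQ T hT p (aeval (A0 T hT) p δ) δ
    have e2 := m1 (p * p)
    have e3 := m2 p
    rw [← Module.End.mul_apply, ← map_mul, lc_comm δ] at e1
    simp only [δ, Finsupp.linearCombination_single, one_smul] at e1 e2
    rw [e2] at e1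
    generalize aeval (A0 T hT) p (Finsupp.single r 1) = g at e1 e3
    simp only [Finsupp.linearCombination_apply, Finsupp.sum, smul_eq_mul] at e1 e3
    have cs := Finset.sum_mul_sq_le_sq_mul_sq g.support g f
    rw [e3, hp] at cs
    simp only [← sq, eval_pow] at e1
    rw [← e1]
    refine le_trans (by simpa using cs) (mul_le_mul_of_nonneg_left (hC _) (by positivity))
  have lim : Tendsto (fun n : ℕ => ∫ x, ((1 - x ^ 2 / (D ^ 2 + 1)) ^ n) ^ 2 ∂ν) atTop
      (𝓝 (∫ x, Set.indicator {0} (1 : ℝ → ℝ) x ∂ν)) := by
    have b : ∀ x ∈ Set.Icc (-D) D, 0 ≤ 1 - x ^ 2 / (D ^ 2 + 1) ∧ 1 - x ^ 2 / (D ^ 2 + 1) ≤ 1 := by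
      intro x hx
      have : x ^ 2 ≤ D ^ 2 := sq_le_sq' hx.1 hx.2
      refine ⟨sub_nonneg.2 ((div_le_one (by positivity)).2 (by linarith)), sub_le_self _ (by positivity)⟩
    refine tendsto_integral_of_dominated_convergence (fun _ => 1)
      (fun n => Continuous.aestronglyMeasurable (by fun_prop)) (integrable_const _) (fun n => ?_) ?_
    · filter_upwards [ae] with x hx
      rw [Real.norm_of_nonneg (by positivity)]
      exact pow_le_one₀ (pow_nonneg (b x hx).1 _) (pow_le_one₀ (b x hx).1 (b x hx).2)
    · filter_upwards [ae] with x hx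
      by_cases h : x = 0
      · simp [h]
      · have := (tendsto_pow_atTop_nhds_zero_of_lt_one (b x hx).1
          (sub_lt_self _ (by positivity))).pow 2
        simpa [h] using this
  have := ge_of_tendsto' (b := 1) (lim.mul_const C) fun n => by
    have := m3 ((1 - Polynomial.X ^ 2 * Polynomial.C (D ^ 2 + 1)⁻¹) ^ n) (by simp)
    simpa only [eval_pow, eval_sub, eval_one, eval_mul, eval_C, eval_X, div_eq_mul_inv] using this
  rw [integral_indicator_one (measurableSet_singleton _)] at this
  rw [pos_iff_ne_zero]
  intro h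
  simp [Measure.real, h] at this
  linarith

section tree
variable {V : Type} {G : SimpleGraph V} {o : V}

theorem ne_nil (P : PathFrom G o) : P.1 ≠ [] := fun h => by simpa [h] using P.2.2.2

open Classical in
/-- extension of a function on lists by zero outside the paths -/
noncomputable def ex (G : SimpleGraph V) (o : V) (w : List V → ℝ) (L : List V) : ℝ :=
  if L.IsChain G.Adj ∧ L.Nodup ∧ L.getLast? = some o then w L else 0

theorem nbr (N : V → Finset V) (hN : ∀ x y, G.Adj x y → y ∈ N x) (P : PathFrom G o) :
    Subtype.val '' (pathTree G o).neighborSet P =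
      {L | L.IsChain G.Adj ∧ L.Nodup ∧ L.getLast? = some o} ∩
        (insert P.1.tail ((fun z => z :: P.1) '' N (P.1.head (ne_nil P)))) := by
  obtain ⟨P, hP⟩ := P
  ext L
  simp only [pathTree, Set.mem_image, SimpleGraph.mem_neighborSet, SimpleGraph.fromRel_adj,
    Set.mem_inter_iff, Set.mem_ofPred_eq, Set.mem_insert_iff, Finset.mem_coe]
  constructor
  · rintro ⟨⟨Q, hQ⟩, ⟨-, h | h⟩, rfl⟩
    · refine ⟨hQ, Or.inr ?_⟩
      match Q, P, hQ, hP, h with
      | z :: y :: Q, _, hQ, _, rfl => exact ⟨z, hN _ _ (List.isChain_cons_cons.1 hQ.1).1.symm, rfl⟩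
      | [_], _, _, hP, rfl => simp at hP
      | [], _, hQ, _, _ => simp at hQ
    · exact ⟨hQ, Or.inl h.symm⟩
  · rintro ⟨hL, rfl | ⟨z, -, rfl⟩⟩
    · refine ⟨⟨_, hL⟩, ⟨fun e => ?_, Or.inr rfl⟩, rfl⟩
      have := congrArg (fun Q => Q.1.length) e
      have k := List.length_pos_of_ne_nil (ne_nil ⟨P, hP⟩)
      simp only [List.length_tail] at this k
      omega
    · refine ⟨⟨_, hL⟩, ⟨fun e => ?_, Or.inl rfl⟩, rfl⟩
      simpa using congrArg (fun Q => Q.1.length) e

theorem nfin (N : V → Finset V) (hN : ∀ x y, G.Adj x y → y ∈ N x) (P : PathFrom G o) :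
    ((pathTree G o).neighborSet P).Finite := by
  refine Set.Finite.of_finite_image (f := Subtype.val) ?_ Subtype.val_injective.injOn
  rw [nbr N hN]
  exact (Set.toFinite _).inter_of_right _

theorem adj_path (N : V → Finset V) (hN : ∀ x y, G.Adj x y → y ∈ N x) (w : List V → ℝ)
    (P : PathFrom G o) : adjOp (pathTree G o) (fun Q => w Q.1) P =
      ex G o w P.1.tail + ∑ z ∈ N (P.1.head (ne_nil P)), ex G o w (z :: P.1) := by
  classical
  have e : ∀ S : Set (List V), ∑ᶠ L ∈ {L : List V | L.IsChain G.Adj ∧ L.Nodup ∧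
      L.getLast? = some o} ∩ S, w L = ∑ᶠ L ∈ S, ex G o w L := by
    intro S
    rw [finsum_mem_def, finsum_mem_def]
    congr 1
    funext L
    simp only [Set.indicator_apply, ex, Set.mem_inter_iff, Set.mem_ofPred_eq]
    split_ifs <;> tauto
  rw [adjOp, ← finsum_mem_image (g := Subtype.val) (f := w) Subtype.val_injective.injOn, nbr N hN, e,
    finsum_mem_insert _ _ (Set.toFinite _), finsum_mem_image (by intro a _ b _ h; simpa using h),
    finsum_mem_coe_finset]
  rintro ⟨z, -, h⟩
  have := congrArg List.length h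
  simp at this
  omega

theorem tele (N : V → Finset V) (hN : ∀ x y, G.Adj x y → y ∈ N x) (w ψ : List V → ℝ)
    (h0 : ∀ L, 0 ≤ ψ L) (h : ∀ P : PathFrom G o, w P.1 ^ 2 +
      ∑ z ∈ N (P.1.head (ne_nil P)), ex G o ψ (z :: P.1) ≤ ψ P.1) (s : Finset (PathFrom G o)) :
    ∑ P ∈ s, w P.1 ^ 2 ≤ ψ [o] := by
  classical
  have x0 : ∀ L, 0 ≤ ex G o ψ L := fun L => by unfold ex; split_ifs; exacts [h0 _, le_rfl]
  have key : ∀ (n : ℕ) (s : Finset (PathFrom G o)), (∀ P ∈ s, P.1.length ≤ n + 1) →
      ∑ P ∈ s, (if P.1.length = n + 1 then ψ P.1 else w P.1 ^ 2) ≤ ψ [o] := by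
    intro n
    induction n with
    | zero =>
      intro s hs
      have : s ⊆ {root G o} := by
        rintro ⟨P, hP⟩ h
        have := hs _ h
        match P, hP, this with
        | [x], hP, _ => 
          obtain rfl : x = o := by simpa using hP.2.2
          exact Finset.mem_singleton.2 rfl
        | [], hP, _ => simp at hP
        | _ :: _ :: _, _, h => simp at h
      refine (Finset.sum_le_sum_of_subset_of_nonneg this fun P _ _ => ?_).trans (by simp [root])
      split_ifs
      exacts [h0 _, sq_nonneg _]
    | succ n ih =>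
      intro s hs
      have par : ∀ P : PathFrom G o, ∃ Q : PathFrom G o, P.1.length = n + 2 → Q.1 = P.1.tail := by
        rintro ⟨P, hP⟩
        match P, hP with
        | z :: y :: P, hP =>
          exact ⟨⟨y :: P, (List.isChain_cons_cons.1 hP.1).2, hP.2.1.of_cons, by simpa using hP.2.2⟩,
            fun _ => rfl⟩
        | [_], _ => exact ⟨root G o, fun h => by simp at h⟩
        | [], hP => simp at hP
      choose par hpar using par
      let a := s.filter fun P => P.1.length = n + 2
      let b := s.filter fun P => ¬ P.1.length = n + 2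
      have ha : ∀ P ∈ a, P.1.length = n + 2 := fun P hP => (Finset.mem_filter.1 hP).2
      have hl : ∀ P ∈ b ∪ a.image par, P.1.length ≤ n + 1 := by
        intro P hP
        rcases Finset.mem_union.1 hP with hP | hP
        · have := hs P (Finset.mem_filter.1 hP).1
          have := (Finset.mem_filter.1 hP).2
          omega
        · obtain ⟨Q, hQ, rfl⟩ := Finset.mem_image.1 hP
          rw [hpar Q (ha Q hQ), List.length_tail, ha Q hQ]
          rfl
      refine le_trans ?_ (ih _ hl)
      rw [Finset.sum_ite, ← Finset.sum_fiberwise_of_maps_to (s := a) (t := b ∪ a.image par) (g := par)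
        fun P hP => Finset.mem_union_right _ (Finset.mem_image_of_mem _ hP), add_comm]
      refine le_trans (add_le_add_left (Finset.sum_le_sum_of_subset_of_nonneg
        (Finset.subset_union_left (s₂ := a.image par)) fun _ _ _ => sq_nonneg _) _) ?_
      rw [← Finset.sum_add_distrib]
      refine Finset.sum_le_sum fun Q _ => ?_
      split_ifs with hq
      · refine le_trans (add_le_add_right ?_ _) (h Q)
        have inj : Set.InjOn (fun P : PathFrom G o => P.1.head (ne_nil P))
            (a.filter fun P => par P = Q) := by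
          intro P hP R hR e
          simp only [Finset.coe_filter, Set.mem_ofPred_eq] at hP hR
          refine Subtype.ext ?_
          rw [← List.cons_head_tail (ne_nil P), ← List.cons_head_tail (ne_nil R),
            ← hpar P (ha P hP.1), ← hpar R (ha R hR.1), hP.2, hR.2]
          exact congrArg (· :: Q.1) e
        have pe : ∀ P ∈ a.filter fun P => par P = Q, P.1.head (ne_nil P) :: Q.1 = P.1 := by
          intro P hP
          rw [Finset.mem_filter] at hP
          rw [← hP.2, hpar P (ha P hP.1), List.cons_head_tail]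
        calc _ = ∑ P ∈ a.filter fun P => par P = Q, ex G o ψ (P.1.head (ne_nil P) :: Q.1) :=
              Finset.sum_congr rfl fun P hP => by rw [pe P hP, ex, if_pos P.2]
          _ = _ := (Finset.sum_image (f := fun z => ex G o ψ (z :: Q.1)) inj).symm
          _ ≤ _ := Finset.sum_le_sum_of_subset_of_nonneg (fun z hz => ?_) fun _ _ _ => x0 _
        obtain ⟨P, hP, rfl⟩ := Finset.mem_image.1 hz
        have := P.2.1
        rw [← pe P hP, ← List.cons_head_tail (ne_nil Q)] at this
        exact hN _ _ (List.isChain_cons_cons.1 this).1.symm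
      · rw [Finset.sum_eq_zero, add_zero]
        intro P hP
        rw [Finset.mem_filter] at hP
        exact absurd (by rw [← hP.2, hpar P (ha P hP.1), List.length_tail, ha P hP.1]; rfl) hq
  refine le_trans (le_of_eq (Finset.sum_congr rfl fun P hP => (if_neg ?_).symm))
    (key (s.sup fun P => P.1.length) s fun P hP => (Finset.le_sup (f := fun P => P.1.length) hP).trans
      (Nat.le_succ _))
  have := Finset.le_sup (f := fun P : PathFrom G o => P.1.length) hP
  omega

end tree

end Pool.Agent.H.MP_703902_co.A
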