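import Mathlib

set_option autoImplicit false

namespace Pool.Agent.H.MP_703902_co.B

def Seg (M : ℤ → Bool → Prop) (j : ℤ) (t : Bool) (n : ℤ) : Prop :=
  (∀ i : ℤ, j - n ≤ i → i < j → ¬ M i t ∧ M i (!t)) ∧ M (j - n - 1) t ∧ n + 1 ≤ j ∧ 0 ≤ n

def Bd (M : ℤ → Bool → Prop) (k : ℤ) : Prop := ∀ j, k < j → ∀ t, ¬ M j t

def St (M : ℤ → Bool → Prop) (k : ℤ) (t : Bool) : Prop :=
  M k t ∧ 1 ≤ k ∧ ∃ m : ℤ, (M k (!t) ∧ Seg M k t (2 * m) ∧ (Bd M k ∨ M (k + 1) t)) ∨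
    (M (k - 1) t ∧ Seg M (k + 1) (!t) (2 * m + 2) ∧ 0 ≤ m ∧ Bd M k)

def ad (M : ℤ → Bool → Prop) (j : ℤ) (t : Bool) : ℤ → Bool → Prop :=
  fun i s => M i s ∨ (i = j ∧ s = t)

def TF (M : ℤ → Bool → Prop) (j : ℤ) (t : Bool) : Prop :=
  1 ≤ j ∧ M (j - 1) t ∧ Bd (ad M j t) j ∧ ¬ M j (!t) ∧ St (ad (ad M j t) j (!t)) j (!t) ∧
    St (ad (ad M j t) (j + 1) t) (j + 1) t

def TB (M : ℤ → Bool → Prop) (j : ℤ) (t : Bool) : Prop :=
  2 ≤ j ∧ ¬ M (j - 1) t ∧ St (ad (ad M j t) (j - 1) t) (j - 1) t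

variable {M : ℤ → Bool → Prop} {k m : ℤ} {t : Bool}

theorem mkF (h1 : 0 ≤ k) (h2 : M k t) (h3 : Bd M k) (h0 : 0 ≤ m) (h4 : Seg M (k + 1) (!t) (2 * m)) :
    TF M (k + 1) t := by
  obtain ⟨s1, s2, s3, s4⟩ := h4
  have b : ∀ j, k < j → ∀ t, ¬ M j t := h3
  refine ⟨by omega, by simpa using h2, fun j hj s => ?_, b _ (by omega) _,
    ⟨Or.inr ⟨rfl, rfl⟩, by omega, m, Or.inl ⟨Or.inl (Or.inr ⟨rfl, by simp⟩),
      ⟨fun i a c => ?_, Or.inl (Or.inl s2), s3, s4⟩, Or.inl fun j hj s => ?_⟩⟩,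
    ⟨Or.inr ⟨rfl, rfl⟩, by omega, m, Or.inr ⟨Or.inl (Or.inr ⟨by omega, rfl⟩),
      ⟨fun i a c => ?_, Or.inl (Or.inl (by convert s2 using 1; ring)), by omega, by omega⟩, h0,
      fun j hj s => ?_⟩⟩⟩
  · rintro (h | h)
    exacts [b j (by omega) s h, by omega]
  · refine ⟨?_, Or.inl (Or.inl (s1 i a c).2)⟩
    rintro ((h | h) | h)
    exacts [(s1 i a c).1 h, by omega, by omega]
  · rintro ((h | h) | h)
    exacts [b j (by omega) s h, by omega, by omega]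
  · have n : ¬ ad (ad M (k + 1) t) (k + 1 + 1) t i (!t) := by
      rintro ((h | h) | h)
      · by_cases e : k < i
        exacts [b i e _ h, (s1 i (by omega) (by omega)).1 h]
      · simpa using h.2
      · simpa using h.2
    refine ⟨n, ?_⟩
    rw [Bool.not_not]
    by_cases e : k < i
    · by_cases e' : i = k + 1
      exacts [Or.inl (Or.inr ⟨e', rfl⟩), Or.inr ⟨by omega, rfl⟩]
    · exact Or.inl (Or.inl (by simpa using (s1 i (by omega) (by omega)).2))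
  · rintro ((h | h) | h)
    exacts [b j (by omega) s h, by omega, by omega]

theorem mkB (h : Seg M (k + 1) t (2 * m)) (hn : ¬ M k t) : TB M k t := by
  obtain ⟨s1, s2, s3, s4⟩ := h
  have m1 : 1 ≤ m := by
    by_contra c
    obtain rfl : m = 0 := by omega
    exact hn (by simpa using s2)
  refine ⟨by omega, (s1 _ (by omega) (by omega)).1, Or.inr ⟨rfl, rfl⟩, by omega, m - 1,
    Or.inl ⟨Or.inl (Or.inl (s1 _ (by omega) (by omega)).2), ⟨fun i a c => ⟨?_,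
      Or.inl (Or.inl (s1 i (by omega) (by omega)).2)⟩, Or.inl (Or.inl (by convert s2 using 1; ring)),
      by omega, by omega⟩, Or.inr (Or.inl (Or.inr ⟨by omega, rfl⟩))⟩⟩
  rintro ((h | h) | h)
  exacts [(s1 i (by omega) (by omega)).1 h, by omega, by omega]

theorem trans (h : St M k t) : (¬ M (k + 1) t → TF M (k + 1) t) ∧
    (¬ M (k - 1) t → TB M (k - 1) t ∧ M k (!t)) ∧ (¬ M k (!t) → TB M k (!t) ∧ M (k - 1) t) ∧
    (M (k + 1) t → M k (!t)) := by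
  obtain ⟨h1, h2, m, ⟨h3, h4, h5⟩ | ⟨h3, h4, h5, h6⟩⟩ := h
  · refine ⟨fun n => mkF (m := 0) (by omega) h1 (h5.resolve_right n) le_rfl
      ⟨fun i a b => by omega, by simpa using h3, by omega, by omega⟩,
      fun n => ⟨mkB (m := m) (by simpa using h4) n, h3⟩, fun n => absurd h3 n, fun _ => h3⟩
  · exact ⟨fun _ => mkF (m := m + 1) (by omega) h1 h6 (by omega) (by simpa [mul_add] using h4),
      fun n => absurd h3 n, fun n => ⟨mkB (m := m + 1) (by simpa [mul_add] using h4) n, h3⟩,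
      fun n => absurd n (h6 _ (by omega) _)⟩

theorem start (h : ∀ j s, M j s ↔ j = 0) : TF M (0 + 1) t :=
  mkF (m := 0) le_rfl ((h _ _).2 rfl) (fun j hj s c => by have := (h _ _).1 c; omega) le_rfl
    ⟨fun i a b => by omega, (h _ _).2 (by simp), by omega, by omega⟩

end Pool.Agent.H.MP_703902_co.B
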