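import Mathlib
import Pool.Agent.H.MP_703902_co.A
import Pool.Agent.H.MP_703902_co.B

set_option autoImplicit false
open Classical

namespace Pool.Agent.H.MP_703902_co.C
open D A B

abbrev V := ℤ × Bool

def N (x : V) : Finset V := {(x.1 + 1, x.2), (x.1 - 1, x.2), (x.1, !x.2)}

theorem memN {x y : V} : y ∈ N x ↔ y = (x.1 + 1, x.2) ∨ y = (x.1 - 1, x.2) ∨ y = (x.1, !x.2) := by
  simp [N]

def lad : SimpleGraph V where
  Adj x y := y ∈ N x
  symm := ⟨by
    rintro ⟨a, s⟩ y h
    rcases memN.1 h with rfl | rfl | rfl <;> simp [memN]⟩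
  loopless := ⟨by
    rintro ⟨a, s⟩ h
    simp [memN] at h
    omega⟩

theorem sumN (x : V) (F : V → ℝ) :
    ∑ z ∈ N x, F z = F (x.1 + 1, x.2) + F (x.1 - 1, x.2) + F (x.1, !x.2) := by
  rw [N, Finset.sum_insert (by simp; omega), Finset.sum_pair (by simp), add_assoc]

variable (u : V)

def Vis (L : List V) (z : V) : Prop := z ∈ L ∨ z = u
def bk (y : V) : V := (if u.1 < y.1 then y.1 - 1 else y.1 + 1, y.2)
def fw (y : V) : V := (if u.1 < y.1 then y.1 + 1 else y.1 - 1, y.2)
def pos (d j : ℤ) (t : Bool) : V := (u.1 + d * j, t)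

noncomputable def co (z y : V) (R : List V) : ℝ :=
  if Vis u R (bk u y) then 1 / 2 else if z = bk u y then 1 else 0

noncomputable def w : List V → ℝ
  | [_] => 1
  | z :: y :: x :: r => -co u z y (x :: r) * w (x :: r)
  | _ => 0

noncomputable def Ph (x : V) (r : List V) : ℝ :=
  if r = [] then 9 else if Vis u r (fw u x) then 1 + |((x.1 - u.1 : ℤ) : ℝ)|
  else 5 + 2 * |((x.1 - u.1 : ℤ) : ℝ)|

noncomputable def cost (y : V) (P : List V) : ℝ :=
  ∑ z ∈ N y, if Vis u (y :: P) z then 0 else co u z y P ^ 2 * Ph u z (y :: P)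

def MM (d : ℤ) (P : List V) : ℤ → Bool → Prop := fun j t => Vis u P (pos u d j t)

def Inv (x : V) (r : List V) : Prop := (r = [] ∧ x = (u.1, !u.2)) ∨ (r ≠ [] ∧
  ∃ d k t, (d = 1 ∨ d = -1) ∧ x = pos u d k t ∧ St (MM u d (x :: r)) k t)

def Good (y : V) (P : List V) : Prop :=
  (∑ z ∈ N y, if Vis u (y :: P) z then 0 else co u z y P) = 1 ∧
    ∀ z ∈ N y, ¬ Vis u (y :: P) z → co u z y P ≠ 0 → Inv u z (y :: P)

variable {u} {d j : ℤ} {t : Bool}

theorem pos_inj (hd : d = 1 ∨ d = -1) {i : ℤ} {s : Bool} :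
    pos u d i s = pos u d j t ↔ i = j ∧ s = t := by
  rcases hd with rfl | rfl <;> simp [pos]

theorem MM_cons (hd : d = 1 ∨ d = -1) (P : List V) :
    MM u d (pos u d j t :: P) = ad (MM u d P) j t := by
  funext i s
  simp only [MM, Vis, ad, List.mem_cons, pos_inj hd, eq_iff_iff]
  tauto

theorem sumP (hd : d = 1 ∨ d = -1) (F : V → ℝ) : ∑ z ∈ N (pos u d j t), F z =
    F (pos u d (j + 1) t) + F (pos u d (j - 1) t) + F (pos u d j (!t)) := by
  rw [sumN]
  rcases hd with rfl | rfl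
  · simp only [pos]; ring_nf
  · simp only [pos]; ring_nf

theorem memP (hd : d = 1 ∨ d = -1) {z : V} (h : z ∈ N (pos u d j t)) :
    z = pos u d (j + 1) t ∨ z = pos u d (j - 1) t ∨ z = pos u d j (!t) := by
  rcases hd with rfl | rfl <;> rcases memN.1 h with rfl | rfl | rfl <;> simp [pos] <;> omega

theorem bkP (hd : d = 1 ∨ d = -1) (hj : 1 ≤ j) : bk u (pos u d j t) = pos u d (j - 1) t := by
  rcases hd with rfl | rfl <;> simp only [pos, bk] <;> split_ifs <;> simp <;> omega

theorem fwP (hd : d = 1 ∨ d = -1) (hj : 1 ≤ j) : fw u (pos u d j t) = pos u d (j + 1) t := by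
  rcases hd with rfl | rfl <;> simp only [pos, fw] <;> split_ifs <;> simp <;> omega

theorem PhP (hd : d = 1 ∨ d = -1) (hj : 1 ≤ j) {r : List V} (hr : r ≠ []) :
    Ph u (pos u d j t) r = if MM u d r (j + 1) t then 1 + (j : ℝ) else 5 + 2 * j := by
  have : |(((pos u d j t).1 - u.1 : ℤ) : ℝ)| = j := by
    have : (0 : ℝ) ≤ j := by exact_mod_cast (by omega : 0 ≤ j)
    rcases hd with rfl | rfl <;> simp [pos, abs_of_nonneg this]
  rw [Ph, if_neg hr, this, fwP hd hj]
  rfl

theorem visP (hd : d = 1 ∨ d = -1) (P : List V) (i : ℤ) (s : Bool) :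
    Vis u (pos u d j t :: P) (pos u d i s) ↔ ad (MM u d P) j t i s := by
  rw [← MM_cons hd]; rfl

theorem goodF (hd : d = 1 ∨ d = -1) {P : List V} (h : TF (MM u d P) j t) :
    Good u (pos u d j t) P ∧ cost u (pos u d j t) P = 3 + j := by
  obtain ⟨h1, h2, h3, h4, h5, h6⟩ := h
  have c : ∀ z, co u z (pos u d j t) P = 1 / 2 := fun z => by rw [co, bkP hd h1]; exact if_pos h2
  have v1 : ¬ ad (MM u d P) j t (j + 1) t := h3 _ (by omega) _
  have v2 : ad (MM u d P) j t (j - 1) t := Or.inl h2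
  have v3 : ¬ ad (MM u d P) j t j (!t) := by simp [ad, h4]
  refine ⟨⟨?_, fun z hz a _ => Or.inr ⟨by simp, ?_⟩⟩, ?_⟩
  · simp only [sumP hd, visP hd, c, v1, v2, v3, if_true, if_false]
    norm_num
  · rcases memP hd hz with rfl | rfl | rfl
    · exact ⟨d, _, _, hd, rfl, by rwa [MM_cons hd, MM_cons hd]⟩
    · exact absurd ((visP hd _ _ _).2 v2) a
    · exact ⟨d, _, _, hd, rfl, by rwa [MM_cons hd, MM_cons hd]⟩
  · simp only [cost, sumP hd, visP hd, c, v1, v2, v3, if_true, if_false]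
    rw [PhP hd (by omega) (by simp), PhP hd h1 (by simp), MM_cons hd, if_neg (h3 _ (by omega) _),
      if_neg (h3 _ (by omega) _)]
    push_cast
    ring

theorem goodB (hd : d = 1 ∨ d = -1) {P : List V} (h : TB (MM u d P) j t) :
    Good u (pos u d j t) P ∧ cost u (pos u d j t) P = j := by
  obtain ⟨h1, h2, h3⟩ := h
  have c : ∀ z, co u z (pos u d j t) P = if z = pos u d (j - 1) t then 1 else 0 := fun z => by
    rw [co, bkP hd (by omega)]; exact if_neg h2
  have v2 : ¬ ad (MM u d P) j t (j - 1) t := by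
    rintro (h | h)
    exacts [h2 h, by omega]
  have n1 : ¬ (j + 1 = j - 1) := by omega
  have n2 : ¬ (j = j - 1) := by omega
  refine ⟨⟨?_, fun z hz a b => Or.inr ⟨by simp, ?_⟩⟩, ?_⟩
  · simp [sumP hd, visP hd, c, v2, pos_inj hd, n1, n2]
  · rw [c] at b
    obtain rfl : z = pos u d (j - 1) t := by by_contra e; exact b (if_neg e)
    exact ⟨d, _, _, hd, rfl, by rwa [MM_cons hd, MM_cons hd]⟩
  · simp only [cost, sumP hd, visP hd, c, v2, pos_inj hd, n1, n2, if_false, false_and, if_true,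
      and_self]
    rw [PhP hd (by omega : 1 ≤ j - 1) (by simp), MM_cons hd,
      if_pos (show ad (MM u d P) j t (j - 1 + 1) t from Or.inr ⟨by omega, rfl⟩)]
    simp

theorem step {x : V} {r : List V} (h : Inv u x r) :
    (∀ y ∈ N x, ¬ Vis u (x :: r) y → Good u y (x :: r)) ∧
      1 + ∑ y ∈ N x, (if Vis u (x :: r) y then 0 else cost u y (x :: r)) ≤ Ph u x r := by
  rcases h with ⟨rfl, rfl⟩ | ⟨hr, d, k, t, hd, rfl, h⟩
  · have s : ∀ d : ℤ, d = 1 ∨ d = -1 → TF (MM u d [(u.1, !u.2)]) (0 + 1) (!u.2) := fun d hd =>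
      start fun j s => by
        obtain ⟨a, b⟩ := u
        rcases hd with rfl | rfl <;> cases s <;> cases b <;> simp [MM, Vis, pos]
    have g1 := goodF (Or.inl rfl) (s 1 (Or.inl rfl))
    have g2 := goodF (Or.inr rfl) (s (-1) (Or.inr rfl))
    simp only [pos, zero_add, mul_one, ← sub_eq_add_neg] at g1 g2
    refine ⟨fun y hy a => ?_, ?_⟩
    · rcases memN.1 hy with rfl | rfl | rfl
      exacts [g1.1, g2.1, absurd (Or.inr (by simp)) a]
    · rw [sumN, g1.2, g2.2, if_pos (show Vis u [(u.1, !u.2)] (u.1, !!u.2) from Or.inr (by simp))]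
      simp only [Ph, if_true]
      split_ifs <;> norm_num
  · obtain ⟨t1, t2, t3, t4⟩ := trans h
    have k1 := h.2.1
    refine ⟨fun y hy a => ?_, ?_⟩
    · rcases memP hd hy with rfl | rfl | rfl
      exacts [(goodF hd (t1 a)).1, (goodB hd (t2 a).1).1, (goodB hd (t3 a).1).1]
    · have e : MM u d r (k + 1) t ↔ MM u d (pos u d k t :: r) (k + 1) t := by
        rw [MM_cons hd]; simp [ad]
      have k2 : (1 : ℝ) ≤ k := by exact_mod_cast k1
      rw [sumP hd, PhP hd k1 hr]
      simp only [e]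
      unfold MM at t1 t2 t3 t4 ⊢
      split_ifs with a b c c b c c
      · linarith
      · exact absurd (t4 a) c
      · rw [(goodB hd (t2 b).1).2]; push_cast; linarith
      · exact absurd (t4 a) c
      · rw [(goodF hd (t1 a)).2]; push_cast; linarith
      · rw [(goodF hd (t1 a)).2, (goodB hd (t3 c).1).2]; push_cast; linarith
      · rw [(goodF hd (t1 a)).2, (goodB hd (t2 b).1).2]; push_cast; linarith
      · exact absurd (t2 b).2 c

abbrev H (u : V) : SimpleGraph V := lad.deleteIncidenceSet u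
abbrev Ok (u : V) (L : List V) : Prop :=
  L.IsChain (H u).Adj ∧ L.Nodup ∧ L.getLast? = some (u.1, !u.2)

theorem hN (x y : V) (h : (H u).Adj x y) : y ∈ N x := (SimpleGraph.deleteIncidenceSet_adj.1 h).1

theorem ok_cons {z x : V} {r : List V} (h : Ok u (x :: r)) (hz : z ∈ N x) :
    Ok u (z :: x :: r) ↔ ¬ Vis u (x :: r) z := by
  have hx : x ≠ u := by
    match r, h with
    | [], h =>
      obtain rfl : x = (u.1, !u.2) := by simpa using h.2.2
      intro e
      simpa using congrArg Prod.snd e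
    | y :: r, h => exact (SimpleGraph.deleteIncidenceSet_adj.1 (List.isChain_cons_cons.1 h.1).1).2.1
  have a : lad.Adj z x := (show lad.Adj x z from hz).symm
  simp only [Ok, List.isChain_cons_cons, SimpleGraph.deleteIncidenceSet_adj, h.1, a, hx, Vis,
    List.nodup_cons (a := z), h.2.1, List.getLast?_cons_cons, h.2.2, ne_eq]
  tauto

theorem ok_tail {z x : V} {r : List V} (h : Ok u (z :: x :: r)) :
    Ok u (x :: r) ∧ z ∈ N x ∧ ¬ Vis u (x :: r) z := by
  have k : Ok u (x :: r) := ⟨(List.isChain_cons_cons.1 h.1).2, h.2.1.of_cons, by simpa using h.2.2⟩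
  have m := hN _ _ (List.isChain_cons_cons.1 h.1).1.symm
  exact ⟨k, m, (ok_cons k m).1 h⟩

theorem inv : ∀ (x : V) (r : List V), Ok u (x :: r) → w u (x :: r) ≠ 0 → Inv u x r
  | x, [], h, _ => Or.inl ⟨rfl, by simpa using h.2.2⟩
  | _, [_], _, h => absurd rfl h
  | z, y :: x :: r, h, h0 => by
    obtain ⟨a1, a2, a3⟩ := ok_tail h
    obtain ⟨b1, b2, b3⟩ := ok_tail a1
    rw [w, mul_ne_zero_iff, neg_ne_zero] at h0
    exact ((step (inv x r b1 h0.2)).1 y b2 b3).2 z a2 a3 h0.1

theorem sum_ex {x : V} {r : List V} (h : Ok u (x :: r)) (F : List V → ℝ) :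
    ∑ z ∈ N x, ex (H u) (u.1, !u.2) F (z :: x :: r) =
      ∑ z ∈ N x, if Vis u (x :: r) z then 0 else F (z :: x :: r) := by
  refine Finset.sum_congr rfl fun z hz => ?_
  simp only [ex, ok_cons h hz, ite_not]

theorem null : adjOp (pathTree (H u) (u.1, !u.2)) (fun Q => w u Q.1) = 0 := by
  funext ⟨P, hP⟩
  rw [adj_path N hN]
  match P, hP with
  | [], hP => simp at hP
  | [x], hP => simp [sum_ex hP, ex, w]
  | y :: x :: r, hP =>
    obtain ⟨b1, b2, b3⟩ := ok_tail hP
    simp only [List.tail_cons, List.head_cons, sum_ex hP, w, Pi.zero_apply]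
    rw [ex, if_pos b1]
    by_cases h0 : w u (x :: r) = 0
    · simp [h0]
    · have := ((step (inv x r b1 h0)).1 y b2 b3).1
      have e : ∀ z, (if Vis u (y :: x :: r) z then 0 else -co u z y (x :: r) * w u (x :: r)) =
          -w u (x :: r) * if Vis u (y :: x :: r) z then 0 else co u z y (x :: r) := fun z => by
        split_ifs <;> ring
      simp only [e, ← Finset.mul_sum, this]
      ring

noncomputable def psi (u : V) : List V → ℝ
  | [] => 0
  | x :: r => w u (x :: r) ^ 2 * Ph u x r + w u r ^ 2 * cost u x r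

theorem Ph0 (x : V) (r : List V) : 0 ≤ Ph u x r := by
  unfold Ph; split_ifs <;> positivity

theorem psi0 : ∀ L, 0 ≤ psi u L
  | [] => le_rfl
  | x :: r => add_nonneg (mul_nonneg (sq_nonneg _) (Ph0 _ _)) (mul_nonneg (sq_nonneg _)
      (Finset.sum_nonneg fun z _ => by
        split_ifs
        exacts [le_rfl, mul_nonneg (sq_nonneg _) (Ph0 _ _)]))

theorem bound (s : Finset (PathFrom (H u) (u.1, !u.2))) :
    ∑ P ∈ s, w u P.1 ^ 2 ≤ psi u [(u.1, !u.2)] := by
  refine tele N hN (w u) (psi u) psi0 ?_ s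
  rintro ⟨P, hP⟩
  match P, hP with
  | [], hP => simp at hP
  | x :: r, hP =>
    simp only [List.head_cons, sum_ex hP, psi]
    have e1 : ∑ y ∈ N x, (if Vis u (x :: r) y then 0 else w u (y :: x :: r) ^ 2 * Ph u y (x :: r)) =
        w u r ^ 2 * cost u x r := by
      match r with
      | [] => simp [w]
      | a :: r =>
        rw [cost, Finset.mul_sum]
        refine Finset.sum_congr rfl fun z _ => ?_
        split_ifs
        · simp
        · rw [w]; ring
    have e2 : ∀ y, (if Vis u (x :: r) y then 0 else w u (y :: x :: r) ^ 2 * Ph u y (x :: r) +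
        w u (x :: r) ^ 2 * cost u y (x :: r)) =
        (if Vis u (x :: r) y then 0 else w u (y :: x :: r) ^ 2 * Ph u y (x :: r)) +
          w u (x :: r) ^ 2 * if Vis u (x :: r) y then 0 else cost u y (x :: r) := fun y => by
      split_ifs <;> simp
    simp only [e2, Finset.sum_add_distrib, e1, ← Finset.mul_sum]
    by_cases h0 : w u (x :: r) = 0
    · simp [h0]
    · have := mul_le_mul_of_nonneg_left (step (inv x r hP h0)).2 (sq_nonneg (w u (x :: r)))
      linarith

theorem main (u : V) (D : ℝ) (ν : MeasureTheory.Measure ℝ)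
    (h : IsMatchingMeasure (H u) (u.1, !u.2) D ν) : 0 < ν {0} := by
  have := h.1
  exact atom _ (nfin N hN) (root _ _) (fun Q => w u Q.1) null rfl _ bound D ν h.2.1 h.2.2

theorem conn : lad.Connected := by
  have r : ∀ (a : ℤ) (s : Bool), lad.Reachable (0, s) (a, s) := by
    intro a s
    induction a using Int.induction_on with
    | zero => rfl
    | succ n ih => exact ih.trans (SimpleGraph.Adj.reachable (memN.2 (Or.inl rfl)))
    | pred n ih => exact ih.trans (SimpleGraph.Adj.reachable (memN.2 (Or.inr (Or.inl rfl))))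
  have q : ∀ x : V, lad.Reachable (0, false) x := by
    rintro ⟨a, _ | _⟩
    · exact r a false
    · exact (SimpleGraph.Adj.reachable (memN.2 (Or.inr (Or.inr rfl)))).trans (r a true)
  exact ⟨fun x y => (q x).symm.trans (q y)⟩

theorem vt (a b : V) : ∃ φ : lad ≃g lad, φ a = b := by
  refine ⟨⟨⟨fun x => (x.1 + (b.1 - a.1), xor x.2 (xor a.2 b.2)),
    fun x => (x.1 - (b.1 - a.1), xor x.2 (xor a.2 b.2)), fun x => by simp, fun x => by simp⟩, ?_⟩, ?_⟩
  · rintro ⟨c, s⟩ ⟨e, t⟩
    simp only [lad, memN, Equiv.coe_fn_mk, Prod.mk.injEq]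
    cases s <;> cases t <;> cases xor a.2 b.2 <;> simp <;> omega
  · obtain ⟨c, s⟩ := a
    obtain ⟨e, t⟩ := b
    cases s <;> cases t <;> simp [RelIso.coe_fn_mk]

end Pool.Agent.H.MP_703902_co.C
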